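import Pool.Agent.H.MP_7aa09c_an.Main

namespace Pool.Agent.Results.MP_7aa09c_an.Range

open Pool.Agent.H.MP_7aa09c_an Pool.Agent.Lib.helper22.Lind

def BPBp (X Y : Type) [NormedAddCommGroup X] [NormedSpace ℝ X] [NormedAddCommGroup Y]
    [NormedSpace ℝ Y] : Prop :=
  ∀ ε > 0, ∃ η > 0, ∀ T : X →L[ℝ] Y, ‖T‖ = 1 → ∀ x0 : X, ‖x0‖ = 1 → 1 - η < ‖T x0‖ →
    ∃ (x : X) (S : X →L[ℝ] Y), ‖x‖ = 1 ∧ ‖S‖ = 1 ∧ ‖S x‖ = 1 ∧ ‖x - x0‖ < ε ∧ ‖S - T‖ < ε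

def OneCompl {Y : Type} [NormedAddCommGroup Y] [NormedSpace ℝ Y] (Y₁ : Submodule ℝ Y) : Prop :=
  IsClosed (Y₁ : Set Y) ∧ ∃ P : Y →L[ℝ] Y, ‖P‖ = 1 ∧ (∀ y, P y ∈ Y₁) ∧ ∀ y ∈ Y₁, P y = y

theorem result : ∃ (X Y : Type) (_ : NormedAddCommGroup X) (_ : NormedSpace ℝ X) (_ : CompleteSpace X)
    (_ : NormedAddCommGroup Y) (_ : NormedSpace ℝ Y) (_ : CompleteSpace Y) (Y₁ : Submodule ℝ Y),
    OneCompl Y₁ ∧ BPBp X Y ∧ ¬ BPBp X Y₁ := by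
  refine ⟨C0, W Y, inferInstance, inferInstance, inferInstance, inferInstance, inferInstance,
    inferInstance, LinearMap.range (j Y).toLinearMap,
    ⟨(j Y).isometry.isClosedEmbedding.isClosed_range, P Y, ?_, P_mem Y, ?_⟩, good Y,
    bad (j Y).equivRange T0 T0_ne far⟩
  · refine le_antisymm ((P Y).opNorm_le_bound zero_le_one fun w => by
      rw [one_mul]; exact P_norm Y w) ?_
    have h1 := (P Y).le_opNorm (j Y (T0 (e 0)))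
    rw [P_j, (j Y).norm_map] at h1
    have h5 : 0 < ‖e 0‖ := lt_of_lt_of_le (by simp [e_app]) (co _ 0)
    have h6 := h5.trans_le (le_T0 (e 0))
    exact le_of_mul_le_mul_right (by rwa [one_mul]) h6
  · rintro _ ⟨z, rfl⟩
    exact P_j Y z

end Pool.Agent.Results.MP_7aa09c_an.Range
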